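import Pool.Agent.N332.GK.Defs
import Pool.Agent.N645.LS.L7a

/-!
# T1: binomial expansion of the moment
-/

set_option autoImplicit false

namespace Pool.Agent.N887.GK

open Finset Pool.Agent.N356.SP Pool.Agent.N332.GK
open Pool.Agent.N645.LS (cosp_cont cosp_add cosp_smul)

/-- T1: expansion -/
theorem Mc_exp (k : ℕ) (g f : ℤ →₀ ℝ) (t : ℝ) :
    Mc k (g + t • f) =
      ∑ j ∈ range (2 * k + 1), ((2 * k).choose j : ℝ) * t ^ j * AJ (2 * k - j) j g f := by
  have hg := cosp_cont g
  have hf := cosp_cont f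
  have h1 : Mc k (g + t • f) = ∫ x in (0:ℝ)..1, ∑ j ∈ range (2 * k + 1),
      (((2 * k).choose j : ℝ) * t ^ j) * (cosp g x ^ (2 * k - j) * cosp f x ^ j) := by
    unfold Mc
    refine intervalIntegral.integral_congr fun x _ => ?_
    simp only [cosp_add, cosp_smul]
    rw [add_comm, add_pow]
    refine sum_congr rfl fun j _ => ?_
    rw [mul_pow]
    ring
  rw [h1, intervalIntegral.integral_finsetSum (fun i _ =>
    (Continuous.intervalIntegrable (by fun_prop) 0 1))]
  refine sum_congr rfl fun j _ => ?_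
  rw [intervalIntegral.integral_const_mul]
  rfl

end Pool.Agent.N887.GK
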